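import Pool.Agent.H165R2.SM8
import Pool.Agent.H165R2.SM9
import Pool.Agent.Y587.FL.Twice
import Pool.Agent.Y587.FL.Hang

open SimpleGraph

namespace Pool.Agent.Results.MP_fc2b6d_co.RepeatedParts

/-- `F` is an `H`-free set of edges of `G`: the spanning subgraph `(V, F)` contains no subgraph
isomorphic to `H`. -/
def IsFreeEdgeSet {W V : Type} (H : SimpleGraph W) (G : SimpleGraph V) (F : Set (Sym2 V)) : Prop :=
  F ⊆ G.edgeSet ∧ H.Free (SimpleGraph.fromEdgeSet F)

/-- `F` is a strongly maximal `H`-free set of edges of `G`: `|I \ F| ≤ |F \ I|` (as cardinals) for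
all `H`-free sets `I` of edges of `G`. -/
def IsStronglyMaximal {W V : Type} (H : SimpleGraph W) (G : SimpleGraph V)
    (F : Set (Sym2 V)) : Prop :=
  IsFreeEdgeSet H G F ∧
    ∀ I : Set (Sym2 V), IsFreeEdgeSet H G I → Cardinal.mk ↥(I \ F) ≤ Cardinal.mk ↥(F \ I)

/-- `Z` is a set of edges of `H` such that every vertex is in an even number of edges of `Z`. -/
def IsEvenSet {W : Type} (H : SimpleGraph W) (Z : Set (Sym2 W)) : Prop :=
  Z ⊆ H.edgeSet ∧ ∀ v : W, Even {e ∈ Z | v ∈ e}.ncard

/-- `H` is 2-connected: connected, without cut vertex, with at least three vertices. -/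
structure TwoConnected {W : Type} (H : SimpleGraph W) : Prop where
  three : ∃ a b c : W, a ≠ b ∧ a ≠ c ∧ b ≠ c
  conn : H.Connected
  cut : ∀ v : W, (H.induce {v}ᶜ).Connected

/-- `H` contains the copies `e i` (`i : ι`) of `K`, glued at the vertex `r`: all copies map `r0` to
`r` and are disjoint otherwise, and every edge of `H` is an edge of one of the copies or joins two
vertices which do not belong to the copies (the vertex `r` is allowed here). -/
structure GluedCopies {W A : Type} (H : SimpleGraph W) (K : SimpleGraph A) (r0 : A) (r : W)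
    {ι : Type} (e : ι → A → W) : Prop where
  root : ∀ i, e i r0 = r
  inj : ∀ i j a b, e i a = e j b → (i = j ∧ a = b) ∨ (a = r0 ∧ b = r0)
  adj : ∀ i a b, K.Adj a b → H.Adj (e i a) (e i b)
  dec : ∀ x y, H.Adj x y → (∃ i a b, K.Adj a b ∧ x = e i a ∧ y = e i b) ∨
    ((∀ i a, x = e i a → a = r0) ∧ (∀ i a, y = e i a → a = r0))

/-- The part of `H` outside the copies: its edges are the edges of `H` joining two vertices which
do not belong to the copies (the vertex `e i r0` is allowed). -/
def remaining {W A : Type} (H : SimpleGraph W) (r0 : A) {ι : Type} (e : ι → A → W) :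
    SimpleGraph W where
  Adj x y := H.Adj x y ∧ (∀ i a, x = e i a → a = r0) ∧ (∀ i a, y = e i a → a = r0)
  symm := ⟨fun _ _ h => ⟨h.1.symm, h.2.2, h.2.1⟩⟩
  loopless := ⟨fun _ h => H.loopless.irrefl _ h.1⟩

/-- The class of graphs treated here. The constructors `repeated` and `glued` are new, also for
infinite graphs; `block` and `forest` are the known base cases. -/
inductive Covered : ∀ {W : Type}, SimpleGraph W → Prop
  /-- 2-connected graphs `H` with two edges `v0 p`, `v0 q` such that every edge `a b` of `H` for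
  which `H - a - b` is disconnected lies in an even set with fewer edges than all even sets
  containing `v0 p` or `v0 q` (this holds in particular if there are no such edges `a b`). -/
  | block {W : Type} [Finite W] (H : SimpleGraph W) (h2 : TwoConnected H) (v0 p q : W)
      (hpq : p ≠ q) (hp : H.Adj v0 p) (hq : H.Adj v0 q)
      (hsep : ∀ a b : W, H.Adj a b → ¬ (H.induce {a, b}ᶜ).Preconnected →
        ∃ Z, IsEvenSet H Z ∧ s(a, b) ∈ Z ∧
          ∀ Z', IsEvenSet H Z' → (s(v0, p) ∈ Z' ∨ s(v0, q) ∈ Z') → Z.ncard < Z'.ncard) :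
      Covered H
  /-- forests which are not stars -/
  | forest {W : Type} [Finite W] [Nonempty W] (H : SimpleGraph W) (hac : H.IsAcyclic)
      (hs : ¬ ∃ v, ∀ e ∈ H.edgeSet, v ∈ e) : Covered H
  /-- graphs (of any cardinality) with a finite component `C` with an edge which is maximal with
  respect to containment (every component containing a copy of `C` is contained in `C`, hence
  isomorphic to `C`) and which occurs at least twice, but only finitely often, as a component -/
  | repeated {W : Type} (H : SimpleGraph W) (C C' : H.ConnectedComponent) (hne : C ≠ C')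
      (hC' : C.toSimpleGraph ⊑ C'.toSimpleGraph) (hfin : C.supp.Finite)
      (hedge : ∃ a b, C.toSimpleGraph.Adj a b)
      (hmax : ∀ D : H.ConnectedComponent, C.toSimpleGraph ⊑ D.toSimpleGraph →
        D.toSimpleGraph ⊑ C.toSimpleGraph)
      (hfew : {D : H.ConnectedComponent | C.toSimpleGraph ⊑ D.toSimpleGraph}.Finite) :
      Covered H
  /-- graphs (of any cardinality) obtained from a graph without copies of `K` and from finitely
  many, at least two, copies of a finite 2-connected graph `K` by gluing them at one vertex `r`,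
  where the vertex `r0` of `K` glued to `r` is not adjacent to all other vertices of `K` -/
  | glued {W A : Type} [Finite A] (H : SimpleGraph W) (K : SimpleGraph A) (hK : TwoConnected K)
      (r0 c0 : A) (hrc : r0 ≠ c0) (hadj : ¬ K.Adj r0 c0) (r : W) {ι : Type} [Finite ι]
      [Nontrivial ι] (e : ι → A → W) (hH : GluedCopies H K r0 r e)
      (hR : ¬ K ⊑ remaining H r0 e) : Covered H
  /-- graphs for which the subgraph induced by the vertices of degree at least `k` is covered -/
  | degree {W : Type} [Finite W] (H : SimpleGraph W) (k : ℕ)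
      (h : Covered (H.induce {w | k ≤ (H.neighborSet w).ncard})) : Covered H
  /-- graphs with a covered component which is maximal with respect to containment -/
  | comp {W : Type} [Finite W] (H : SimpleGraph W) (C : H.ConnectedComponent)
      (h : Covered C.toSimpleGraph)
      (hmax : ∀ C' : H.ConnectedComponent, C.toSimpleGraph ⊑ C'.toSimpleGraph →
        C'.toSimpleGraph ⊑ C.toSimpleGraph) : Covered H

open Pool.Agent.Results.MP_fc2b6d_co.Forests in
theorem Covered.fail {W : Type} {H : SimpleGraph W} (h : Covered H) :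
    (∃ a b, H.Adj a b) ∧ Fail H := by
  classical
  induction h with
  | @block W _ H h2 v0 p q hpq hp hq hsep =>
    refine ⟨⟨_, _, hp⟩, ?_⟩
    have hfin : H.edgeSet.Finite := Set.toFinite _
    have hE : ∀ e, e ∈ hfin.toFinset ↔ e ∈ H.edgeSet := fun e => hfin.mem_toFinset
    have hEv : ∀ Z : Finset (Sym2 W), Z ⊆ hfin.toFinset →
        (H165R2.SM.Ev Z ↔ IsEvenSet H (Z : Set (Sym2 W))) := by
      intro Z hZ
      have hsub : (Z : Set (Sym2 W)) ⊆ H.edgeSet := fun e he => (hE e).1 (hZ he)
      have hcard : ∀ v, {e ∈ (Z : Set (Sym2 W)) | v ∈ e}.ncard = H165R2.SM.dg Z v := by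
        intro v
        rw [H165R2.SM.dg, ← Set.ncard_coe_finset]
        congr 1
        ext e
        simp
      constructor
      · intro h
        exact ⟨hsub, fun v => by rw [hcard]; exact h v⟩
      · intro h v
        rw [← hcard]
        exact h.2 v
    refine H165R2.SM.fail_good H hfin.toFinset hE v0 p q hpq hp hq
      ⟨H165R2.SM.Rl_all hE h2.conn.preconnected (fun v => (h2.cut v).preconnected) h2.three, ?_⟩
    intro a b hab hs
    have hcon : ¬ (H.induce {a, b}ᶜ).Preconnected := fun hc => H165R2.SM.not_sep hE hc hs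
    obtain ⟨Z, hZ, habZ, hmin⟩ := hsep a b ((hE _).1 hab) hcon
    have hZfin : Z.Finite := Set.toFinite _
    refine ⟨hZfin.toFinset, ?_, ?_, hZfin.mem_toFinset.2 habZ, ?_⟩
    · intro e he
      exact (hE e).2 (hZ.1 (hZfin.mem_toFinset.1 he))
    · rw [hEv _ (fun e he => (hE e).2 (hZ.1 (hZfin.mem_toFinset.1 he))), hZfin.coe_toFinset]
      exact hZ
    · intro Z' hZ' hE' hmem
      have := hmin Z' ((hEv Z' hZ').1 hE') hmem
      rw [Set.ncard_coe_finset] at this
      rwa [← Set.ncard_eq_toFinset_card Z hZfin]
  | @forest W _ _ H hac hs =>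
    have hs' : ¬ IsStar H := by
      rintro ⟨v, hv⟩
      apply hs
      refine ⟨v, fun e => ?_⟩
      induction e with
      | _ a b =>
        intro he
        rcases hv a b he with rfl | rfl
        · exact Sym2.mem_mk_left _ _
        · exact Sym2.mem_mk_right _ _
    refine ⟨?_, forest_fail hac hs'⟩
    by_contra hcon
    push Not at hcon
    obtain ⟨w⟩ := ‹Nonempty W›
    exact hs' ⟨w, fun a b hab => absurd hab (hcon a b)⟩
  | @repeated W H C C' hne hC' hfin hedge hmax hfew =>
    refine ⟨?_, Pool.Agent.Y587.FL.twice_step C C' hfin.to_subtype hfew hne hC' hedge hmax⟩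
    obtain ⟨a, b, hab⟩ := hedge
    exact ⟨a, b, hab⟩
  | @glued W A _ H K hK r0 c0 hrc hadj r ι _ _ e hH hR =>
    have he : ∃ a b, K.Adj a b := by
      obtain ⟨a, b, -, hab, -⟩ := hK.three
      obtain ⟨p⟩ := hK.conn.preconnected a b
      cases p with
      | nil => exact absurd rfl hab
      | cons h _ => exact ⟨_, _, h⟩
    obtain ⟨i1, i2, hi⟩ := exists_pair_ne ι
    refine ⟨?_, Pool.Agent.Y587.FL.hang_step hK.conn (fun v => (hK.cut v).preconnected) he r0 c0
      hrc hadj r e ⟨hH.root, hH.inj, hH.adj, hH.dec⟩ i1 i2 hi hR⟩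
    obtain ⟨a, b, hab⟩ := he
    exact ⟨_, _, hH.adj i1 a b hab⟩
  | @degree W _ H k h ih =>
    obtain ⟨⟨a, b, hab⟩, hf⟩ := ih
    exact ⟨⟨a, b, hab⟩, H165R2.SM.degree_step k _ (fun w => Iff.rfl) ⟨a, b, hab⟩ hf⟩
  | @comp W _ H C h hmax ih =>
    obtain ⟨⟨a, b, hab⟩, hf⟩ := ih
    exact ⟨⟨a, b, hab⟩, comp_step C ⟨a, b, hab⟩ hf hmax⟩

/-- For every graph `H` of the class there is a graph `G` without strongly maximal `H`-free edge
set. -/
theorem result {W : Type} (H : SimpleGraph W) (h : Covered H) :
    ∃ (V : Type) (G : SimpleGraph V), ¬ ∃ F : Set (Sym2 V), IsStronglyMaximal H G F := by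
  exact h.fail.2.spec

end Pool.Agent.Results.MP_fc2b6d_co.RepeatedParts
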